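import Pool.Agent.Helper88.QT.St3
import Pool.Agent.Helper85.QT.St1

/-!
# Project QT, module CHC: sum of the costs
-/

set_option autoImplicit false

open MeasureTheory Matrix Set Topology Filter
open scoped ENNReal ComplexConjugate

namespace Pool.Agent.Helper34.QT

open Pool.Agent.Helper88.QT
open Pool.Agent.Helper35.PM

theorem tanh_mono_le {x y : ℝ} (h : x ≤ y) : Real.tanh x ≤ Real.tanh y := by
  by_contra hc
  push Not at hc
  have h1 := Real.strictMonoOn_artanh ⟨Real.neg_one_lt_tanh y, Real.tanh_lt_one y⟩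
    ⟨Real.neg_one_lt_tanh x, Real.tanh_lt_one x⟩ hc
  rw [Real.artanh_tanh, Real.artanh_tanh] at h1
  linarith

theorem tanh_add_eq (x y : ℝ) :
    Real.tanh (x + y) = (Real.tanh y + Real.tanh x) / (1 + Real.tanh x * Real.tanh y) := by
  have hx := (Real.cosh_pos x).ne'
  have hy := (Real.cosh_pos y).ne'
  have hxy := (Real.cosh_pos (x + y)).ne'
  have h1 : (1 + Real.tanh x * Real.tanh y) ≠ 0 := by
    have a1 := Real.tanh_lt_one x
    have a2 := Real.neg_one_lt_tanh x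
    have a3 := Real.tanh_lt_one y
    have a4 := Real.neg_one_lt_tanh y
    nlinarith
  rw [eq_div_iff h1]
  rw [Real.tanh_eq_sinh_div_cosh, Real.tanh_eq_sinh_div_cosh, Real.tanh_eq_sinh_div_cosh,
    div_mul_eq_mul_div, div_eq_iff hxy, Real.sinh_add, Real.cosh_add]
  field_simp
  ring

theorem tanh_half_ge : (1 : ℝ) / 3 ≤ Real.tanh (1 / 2) := by
  have h2 : (2 : ℝ) ≤ Real.exp 1 := by
    have := Real.add_one_le_exp (1 : ℝ)
    linarith
  have e1 : Real.exp (1 / 2) * Real.exp (1 / 2) = Real.exp 1 := by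
    rw [← Real.exp_add]
    norm_num
  have e2 : Real.exp (1 / 2) * Real.exp (-(1 / 2)) = 1 := by
    rw [← Real.exp_add]
    norm_num
  have hp : 0 < Real.exp (1 / 2) := Real.exp_pos _
  have hq : 0 < Real.exp (-(1 / 2)) := Real.exp_pos _
  rw [Real.tanh_eq_sinh_div_cosh, Real.sinh_eq, Real.cosh_eq]
  rw [div_le_div_iff₀ (by norm_num) (by positivity)]
  nlinarith

theorem tanh_quot : Real.tanh (1 / 2) ≤ Real.tanh 1 * Real.tanh 1 := by
  have h3 := tanh_half_ge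
  have h1 := Real.tanh_lt_one (1 / 2)
  have e : Real.tanh 1 = (Real.tanh (1 / 2) + Real.tanh (1 / 2)) /
      (1 + Real.tanh (1 / 2) * Real.tanh (1 / 2)) := by
    rw [← tanh_add_eq]
    norm_num
  generalize Real.tanh (1 / 2) = T at *
  rw [e, div_mul_div_comm, le_div_iff₀ (by positivity)]
  have h4 : 0 ≤ (1 - T) * (T ^ 3 + T ^ 2 + 3 * T - 1) := by
    apply mul_nonneg (by linarith)
    nlinarith [pow_nonneg (by linarith : (0 : ℝ) ≤ T) 3]
  have h5 : 0 ≤ T * ((1 - T) * (T ^ 3 + T ^ 2 + 3 * T - 1)) := mul_nonneg (by linarith) h4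
  nlinarith

theorem tanh_one_pos : 0 < Real.tanh 1 := by
  have h3 := tanh_half_ge
  have := tanh_mono_le (show (1 / 2 : ℝ) ≤ 1 by norm_num)
  linarith

/-- the parameter of the smaller disc -/
theorem exists_par (δ : ℝ) (h0 : 0 ≤ δ) (h1 : δ ≤ 1) : ∃ x : ℝ, 0 ≤ x ∧ x ≤ 2 ∧
    Real.tanh 1 * Real.tanh (x / 2) = Real.tanh (δ / 2) := by
  have hp := tanh_one_pos
  have hlt := Real.tanh_lt_one 1
  have hw1 : Real.tanh (δ / 2) / Real.tanh 1 ≤ Real.tanh 1 := by
    rw [div_le_iff₀ hp]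
    exact (tanh_mono_le (by linarith)).trans tanh_quot
  have hw0 : 0 ≤ Real.tanh (δ / 2) / Real.tanh 1 := by
    apply div_nonneg _ hp.le
    have := tanh_mono_le (show (0 : ℝ) ≤ δ / 2 by linarith)
    simpa using this
  have hm : Real.tanh (δ / 2) / Real.tanh 1 ∈ Ioo (-1 : ℝ) 1 := ⟨by linarith, by linarith⟩
  have ht := Real.tanh_artanh hm
  have hx0 : 0 ≤ Real.artanh (Real.tanh (δ / 2) / Real.tanh 1) := by
    have h2 := Real.artanh_le_artanh (x := 0) (by norm_num) hm.2 hw0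
    simpa using h2
  have hx1 : Real.artanh (Real.tanh (δ / 2) / Real.tanh 1) ≤ 1 := by
    have h2 := Real.artanh_le_artanh hm.1 hlt hw1
    rwa [Real.artanh_tanh] at h2
  refine ⟨2 * Real.artanh (Real.tanh (δ / 2) / Real.tanh 1), by linarith, by linarith, ?_⟩
  rw [mul_div_cancel_left₀ _ (by norm_num : (2 : ℝ) ≠ 0), ht, mul_div_cancel₀]
  exact hp.ne'

theorem Tp_key (p ζ : ℂ) :
    ‖1 + conj p * ζ‖ ^ 2 - ‖ζ + p‖ ^ 2 = (1 - ‖p‖ ^ 2) * (1 - ‖ζ‖ ^ 2) := by
  simp only [Complex.sq_norm, Complex.normSq_apply]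
  simp
  ring

theorem Tp_lt (p ζ : ℂ) (hp : ‖p‖ < 1) (hζ : ‖ζ‖ < 1) : ‖ζ + p‖ < ‖1 + conj p * ζ‖ := by
  have h := Tp_key p ζ
  have h1 : 0 < (1 - ‖p‖ ^ 2) * (1 - ‖ζ‖ ^ 2) := by
    apply mul_pos
    · nlinarith [norm_nonneg p]
    · nlinarith [norm_nonneg ζ]
  refine lt_of_pow_lt_pow_left₀ 2 (norm_nonneg _) ?_
  linarith

theorem Tp_ne (p ζ : ℂ) (hp : ‖p‖ < 1) (hζ : ‖ζ‖ < 1) : 1 + conj p * ζ ≠ 0 := by
  have h := Tp_lt p ζ hp hζ
  intro h0
  rw [h0, norm_zero] at h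
  exact absurd h (not_lt.mpr (norm_nonneg _))

theorem Tp_mem (p ζ : ℂ) (hp : ‖p‖ < 1) (hζ : ‖ζ‖ < 1) : ‖Tp p ζ‖ < 1 := by
  unfold Tp
  rw [norm_div, div_lt_one (norm_pos_iff.mpr (Tp_ne p ζ hp hζ))]
  exact Tp_lt p ζ hp hζ

theorem zt_lt (t : ℝ) : ‖zt t‖ < 1 := by
  unfold zt
  rw [Complex.norm_real, Real.norm_eq_abs, abs_lt]
  exact ⟨Real.neg_one_lt_tanh _, Real.tanh_lt_one _⟩

theorem zt_zero : zt 0 = 0 := by
  unfold zt
  simp

theorem Tp_zt (t δ : ℝ) : Tp (zt t) (zt δ) = zt (t + δ) := by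
  unfold Tp zt
  rw [Complex.conj_ofReal, add_div t δ 2, tanh_add_eq]
  push_cast
  ring

theorem Tp_zero (p : ℂ) : Tp p 0 = p := by
  unfold Tp
  simp

theorem scale_lt (z : ℂ) (hz : z ∈ Metric.ball (0 : ℂ) 1) :
    ‖((Real.tanh 1 : ℝ) : ℂ) * z‖ ≤ Real.tanh 1 := by
  rw [mem_ball_zero_iff] at hz
  rw [norm_mul, Complex.norm_real, Real.norm_eq_abs, abs_of_pos tanh_one_pos]
  nlinarith [tanh_one_pos, norm_nonneg z]

theorem holdisc_rc {Γ : Type} [Group Γ] (f : ℂ → Γ →* SL) (hf : HolDisc f) (t : ℝ) :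
    HolDisc (fun ζ => rc f (zt t) (((Real.tanh 1 : ℝ) : ℂ) * ζ)) := by
  have hlt := Real.tanh_lt_one 1
  have hmap : ∀ ζ ∈ Metric.ball (0 : ℂ) 1,
      Tp (zt t) (((Real.tanh 1 : ℝ) : ℂ) * ζ) ∈ Metric.ball (0 : ℂ) 1 := by
    intro ζ hζ
    rw [mem_ball_zero_iff]
    exact Tp_mem _ _ (zt_lt t) (lt_of_le_of_lt (scale_lt ζ hζ) hlt)
  have hd : DifferentiableOn ℂ (fun ζ => Tp (zt t) (((Real.tanh 1 : ℝ) : ℂ) * ζ))
      (Metric.ball (0 : ℂ) 1) := by
    unfold Tp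
    apply DifferentiableOn.div
    · fun_prop
    · fun_prop
    · intro ζ hζ
      exact Tp_ne _ _ (zt_lt t) (lt_of_le_of_lt (scale_lt ζ hζ) hlt)
  constructor
  · intro γ i j
    exact (hf.1 γ i j).comp hd hmap
  · intro z hz
    exact hf.2 _ (hmap z hz)

theorem pd_tri {Γ : Type} [Group Γ] (U : (Γ →* SL) → Ultrafilter ℝ) (a b c : Γ →* SL) :
    pressureDist U a c ≤ pressureDist U a b + pressureDist U b c := by
  unfold pressureDist
  rw [ENNReal.sInf_add]
  refine le_iInf₂ (fun B hB => ?_)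
  rw [ENNReal.add_sInf]
  exact le_iInf₂ (fun B' hB' => sInf_le (PressureLE.trans _ _ _ _ _ hB hB'))

theorem pd_self {Γ : Type} [Group Γ] (U : (Γ →* SL) → Ultrafilter ℝ) (a : Γ →* SL) :
    pressureDist U a a = 0 := by
  apply le_antisymm _ bot_le
  exact sInf_le (PressureLE.conj _ _ 1 (fun γ => Or.inl (by simp)))

theorem one_step (hQF : St_QF) (hCS1 : StCS1) {g : ℕ} (hg : 2 ≤ g)
    (U : (SurfaceGroup g →* SL) → Ultrafilter ℝ) (hU : ∀ ρ, IsQF ρ → Adapted (U ρ) ρ)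
    (f : ℂ → SurfaceGroup g →* SL) (hf : HolDisc f) (t δ ε : ℝ) (hδ0 : 0 ≤ δ) (hδ1 : δ ≤ 1)
    (hε : 0 ≤ ε)
    (h : ∀ ζ : ℂ, ‖ζ‖ ≤ Real.tanh 1 →
      |1 / ent (rc f (zt t) ζ) - 1 / ent (f (zt t))| ≤ ε) :
    pressureDist U (f (zt t)) (f (zt (t + δ))) ≤ ENNReal.ofReal (Real.sqrt (32 * ε)) := by
  obtain ⟨x, hx0, hx2, hx⟩ := exists_par δ hδ0 hδ1
  have hfj := holdisc_rc f hf t
  have hu : ∀ ζ : ℂ, ‖ζ‖ ≤ Real.tanh 1 →
      1 / ent (f (zt t)) - ε ≤ 1 / ent (rc f (zt t) ζ) ∧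
      1 / ent (rc f (zt t) ζ) ≤ 1 / ent (f (zt t)) + ε := by
    intro ζ hζ
    have h1 := abs_le.mp (h ζ hζ)
    exact ⟨by linarith [h1.1], by linarith [h1.2]⟩
  have hzt1 : ∀ s : ℝ, zt s ∈ Metric.ball (0 : ℂ) 1 := fun s => by
    rw [mem_ball_zero_iff]
    exact zt_lt s
  have hcs := hCS1 g hg U hU _ hfj (max (1 / 2) (1 / ent (f (zt t)) - ε)) (2 * ε) x hx0
    (by linarith) (le_max_left _ _) ?_ ?_
  · have e0 : rc f (zt t) (((Real.tanh 1 : ℝ) : ℂ) * 0) = f (zt t) := by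
      rw [mul_zero]
      unfold rc
      rw [Tp_zero]
    have e1 : rc f (zt t) (((Real.tanh 1 : ℝ) : ℂ) * zt x) = f (zt (t + δ)) := by
      have e2 : ((Real.tanh 1 : ℝ) : ℂ) * zt x = zt δ := by
        unfold zt
        rw [← Complex.ofReal_mul, hx]
      rw [e2]
      unfold rc
      rw [Tp_zt]
    rw [e0, e1] at hcs
    refine hcs.trans (ENNReal.ofReal_le_ofReal (Real.sqrt_le_sqrt ?_))
    have h1 : x * (x + 2) ≤ 8 := by nlinarith
    nlinarith [mul_le_mul_of_nonneg_left h1 hε]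
  · intro z hz
    refine max_le ?_ (hu _ (scale_lt z hz)).1
    have hq := hQF g hg _ (hfj.2 z hz)
    have h1 : 0 < ent (rc f (zt t) (((Real.tanh 1 : ℝ) : ℂ) * z)) := hq.2.1
    have h2 : ent (rc f (zt t) (((Real.tanh 1 : ℝ) : ℂ) * z)) ≤ 2 := hq.2.2.1
    exact one_div_le_one_div_of_le h1 h2
  · intro s _
    have h1 := (hu _ (scale_lt (zt s) (hzt1 s))).2
    have h2 := le_max_right (1 / 2 : ℝ) (1 / ent (f (zt t)) - ε)
    linarith

theorem sqrt_id (C K t : ℝ) (hC : 0 ≤ C) : Real.sqrt (32 * (C * Real.exp (-(K - t) / 10))) =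
    Real.sqrt (32 * C) * Real.exp (-(K - t) / 20) := by
  have h : 32 * (C * Real.exp (-(K - t) / 10)) =
      (Real.sqrt (32 * C) * Real.exp (-(K - t) / 20)) ^ 2 := by
    rw [mul_pow, Real.sq_sqrt (by positivity), ← Real.exp_nat_mul]
    have e : ((2 : ℕ) : ℝ) * (-(K - t) / 20) = -(K - t) / 10 := by
      push_cast
      ring
    rw [e]
    ring
  rw [h, Real.sqrt_sq (by positivity)]

theorem hCHC (hQF : St_QF) (hCS1 : StCS1) : StCHC := by
  intro C₁ hC g hg U hU f hf K L hL0 hLK h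
  have hs : 0 ≤ Real.sqrt (32 * C₁) := Real.sqrt_nonneg _
  have hstep : ∀ t δ : ℝ, 0 ≤ t → t ≤ L → 0 ≤ δ → δ ≤ 1 →
      pressureDist U (f (zt t)) (f (zt (t + δ))) ≤
        ENNReal.ofReal (Real.sqrt (32 * C₁) * Real.exp (-(K - t) / 20)) := by
    intro t δ ht0 htL hδ0 hδ1
    have h1 := one_step hQF hCS1 hg U hU f hf t δ (C₁ * Real.exp (-(K - t) / 10)) hδ0 hδ1
      (by positivity) (h t ⟨ht0, htL⟩)
    rwa [sqrt_id C₁ K t hC] at h1
  rcases lt_or_ge L 1 with hL1 | hL1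
  · have h1 := hstep 0 L le_rfl hL0 hL0 hL1.le
    rw [zero_add, zt_zero] at h1
    refine h1.trans (ENNReal.ofReal_le_ofReal ?_)
    have h2 : Real.exp (-(K - 0) / 20) ≤ 1 := by
      apply Real.exp_le_one_iff.mpr
      linarith
    nlinarith
  · set n : ℕ := ⌊L⌋₊ + 1 with hn
    have hnL : L ≤ (n : ℝ) := by
      rw [hn]
      push_cast
      exact (Nat.lt_floor_add_one L).le
    have hn2 : (n : ℝ) ≤ 2 * L := by
      rw [hn]
      push_cast
      have := Nat.floor_le (by linarith : (0 : ℝ) ≤ L)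
      linarith
    have hnpos : (0 : ℝ) < n := by linarith
    set δ : ℝ := L / n with hδ
    have hδ0 : 0 ≤ δ := by positivity
    have hδ1 : δ ≤ 1 := by
      rw [hδ, div_le_one hnpos]
      exact hnL
    have hδ2 : 1 / 2 ≤ δ := by
      rw [hδ, div_le_div_iff₀ (by norm_num) hnpos]
      linarith
    have hnδ : (n : ℝ) * δ = L := by
      rw [hδ]
      field_simp
    have hP : ∀ m : ℕ, m ≤ n → pressureDist U (f 0) (f (zt (m * δ))) ≤
        ENNReal.ofReal (40 * Real.sqrt (32 * C₁) * Real.exp (-((n : ℝ) - m) / 40)) := by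
      intro m
      induction m with
      | zero =>
        intro _
        simp only [Nat.cast_zero, zero_mul, zt_zero, pd_self]
        exact bot_le
      | succ m ih =>
        intro hm
        have hmn : (m : ℝ) + 1 ≤ n := by exact_mod_cast hm
        have hm0 : (0 : ℝ) ≤ m := Nat.cast_nonneg m
        have h1 := ih (by omega)
        have h2 := hstep (m * δ) δ (by positivity)
          (by rw [← hnδ]; exact mul_le_mul_of_nonneg_right (by linarith) hδ0) hδ0 hδ1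
        have e : (m : ℝ) * δ + δ = ((m + 1 : ℕ) : ℝ) * δ := by
          push_cast
          ring
        rw [e] at h2
        refine (pd_tri U _ (f (zt (m * δ))) _).trans ((add_le_add h1 h2).trans ?_)
        rw [← ENNReal.ofReal_add (by positivity) (by positivity)]
        apply ENNReal.ofReal_le_ofReal
        have h3 : Real.exp (-(K - m * δ) / 20) ≤ Real.exp (-((n : ℝ) - m) / 40) := by
          apply Real.exp_le_exp.mpr
          have h4 : ((n : ℝ) - m) * δ ≤ K - m * δ := by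
            have : ((n : ℝ) - m) * δ = L - m * δ := by
              rw [sub_mul, hnδ]
            linarith
          have h5 : ((n : ℝ) - m) * (1 / 2) ≤ ((n : ℝ) - m) * δ :=
            mul_le_mul_of_nonneg_left hδ2 (by linarith)
          linarith
        have h6 : Real.exp (-((n : ℝ) - ((m + 1 : ℕ) : ℝ)) / 40) =
            Real.exp (-((n : ℝ) - m) / 40) * Real.exp (1 / 40) := by
          rw [← Real.exp_add]
          congr 1
          push_cast
          ring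
        rw [h6]
        have h7 : (41 : ℝ) / 40 ≤ Real.exp (1 / 40) := by
          have := Real.add_one_le_exp (1 / 40 : ℝ)
          linarith
        have h8 : 0 < Real.exp (-((n : ℝ) - m) / 40) := Real.exp_pos _
        have h9 := mul_le_mul_of_nonneg_left h3 hs
        have h10 : 0 ≤ Real.sqrt (32 * C₁) * Real.exp (-((n : ℝ) - m) / 40) := by positivity
        have h11 := mul_le_mul_of_nonneg_left h7 h10
        nlinarith
    have h1 := hP n le_rfl
    rw [hnδ] at h1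
    refine h1.trans (ENNReal.ofReal_le_ofReal ?_)
    have e : -((n : ℝ) - (n : ℝ)) / 40 = 0 := by ring
    rw [e, Real.exp_zero]
    nlinarith

end Pool.Agent.Helper34.QT
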